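import Pool.Agent.TH120.HM.Cor
import Pool.Agent.NH24.GU.G

/-!
# The KZ associator: relations of growing degree

Polynomial relations of degree up to `D = c log N / log log N` between the multiple zeta values
`ζ(a_1 N + b_1, ..., a_r N + b_r)`, `b_i ≤ (log N) ^ a`, whose coefficients are combinations of
`1, μ, μ², μ³, φ, μ φ` (`μ = 2πi`, `φ = ζ(3)`) with integer coefficients of total size at most `2 ^ (N ^ γ)`,
`γ < 1`, times a power of `μ`: each of the six components is a consequence of the stuffle product.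
-/

set_option autoImplicit false

namespace Pool.Agent.Results.MP_807c24_nt.GrowingDegree

open Real

/-- `trunc [s_1, ..., s_r] m` is the sum of `∏ n_i ^ (-s_i)` over `m > n_1 > ... > n_r ≥ 1` -/
noncomputable def trunc : List ℕ → ℕ → ℝ
  | [], _ => 1
  | s :: l, m => ∑ j ∈ Finset.Ico 1 m, trunc l j / (j : ℝ) ^ s

/-- the multiple zeta value `ζ(s_1, ..., s_r)`, `s_1` belongs to the largest variable -/
noncomputable def mzv : List ℕ → ℝ
  | [] => 1
  | s :: l => ∑' m : ℕ, trunc l (m + 1) / ((m + 1 : ℕ) : ℝ) ^ s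

/-- `μ = 2πi` -/
noncomputable def mu : ℂ := 2 * π * Complex.I

/-- `φ = ζ(3)` -/
noncomputable def zeta3 : ℝ := ∑' n : ℕ, 1 / ((n : ℝ) + 1) ^ 3

/-- the value `x_0 + x_1 μ + x_2 μ² + x_3 μ³ + x_4 φ + x_5 μ φ` at `μ = 2πi`, `φ = ζ(3)` -/
noncomputable def value (x : Fin 6 → ℝ) : ℂ :=
  x 0 + x 1 * mu + x 2 * mu ^ 2 + x 3 * mu ^ 3 + x 4 * zeta3 + x 5 * (mu * zeta3)

/-- admissible indices: `(s_1, ..., s_r)` with `r ≥ 1`, `s_1 ≥ 2` and all `s_i ≥ 1` -/
def AdmissibleIndex : List ℕ → Prop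
  | [] => False
  | s :: l => 2 ≤ s ∧ ∀ t ∈ l, 1 ≤ t

/-- the number of arguments `≥ 2` -/
def height (w : List ℕ) : ℕ := w.countP (fun s => decide (2 ≤ s))

/-- the list of the indices in the stuffle (series) product of two indices -/
def stuffles : List ℕ → List ℕ → List (List ℕ)
  | [], l => [l]
  | i :: k, [] => [i :: k]
  | i :: k, j :: l => (stuffles k (j :: l)).map (i :: ·) ++ (stuffles (i :: k) l).map (j :: ·) ++
      (stuffles k l).map ((i + j) :: ·)
termination_by k l => k.length + l.length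

/-- `Z` has the stuffle product: `Z(k) Z(l) = ∑ Z(m)` over the indices `m` of the stuffle product
of `k` and `l`, for all admissible indices `k` and `l` -/
def HasStuffleProduct {A : Type} [CommRing A] (Z : List ℕ → A) : Prop :=
  ∀ k l : List ℕ, AdmissibleIndex k → AdmissibleIndex l →
    Z k * Z l = ((stuffles k l).map Z).sum

/-- words; the letter `(a, b)` stands for the argument `a N + b` -/
abbrev Word := List (ℕ × ℕ)

/-- the index `(a_1 N + b_1, ..., a_r N + b_r)` of a word -/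
def index (N : ℕ) (w : Word) : List ℕ := w.map fun y => y.1 * N + y.2

/-- the sum `a_1 + ... + a_r` -/
def size (w : Word) : ℕ := (w.map Prod.fst).sum

/-- polynomials in the variables `X_w`, `w` a word `(a_1, b_1) ... (a_r, b_r)` with `r ≥ 1`, `a_i ≥ 1`
and `b_i ≤ J`, of degree at most `D` if `X_w` has degree `a_1 + ... + a_r` -/
def Near (D J : ℕ) (f : MvPolynomial Word ℤ) : Prop :=
  ∀ m ∈ f.support, (∀ w ∈ m.support, w ≠ [] ∧ ∀ y ∈ w, 1 ≤ y.1 ∧ y.2 ≤ J) ∧
    ∑ w ∈ m.support, m w * size w ≤ D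

lemma trunc_eq (w : List ℕ) : ∀ m, trunc w m = Pool.Agent.Y760.ZG.hr w m := by
  induction w with
  | nil => intro m; rw [trunc, Pool.Agent.Y760.ZG.hr_nil]
  | cons s w ih =>
    intro m
    rw [trunc, Pool.Agent.Y760.ZG.hr_cons]
    exact Finset.sum_congr rfl fun j _ => by rw [ih]

lemma mzv_eq : mzv = Pool.Agent.Y760.ZG.mz := by
  funext w
  cases w with
  | nil => rw [mzv, Pool.Agent.Y760.ZG.mz]
  | cons s w =>
    rw [mzv, Pool.Agent.Y760.ZG.mz]
    exact tsum_congr fun m => by rw [trunc_eq]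

lemma adm_iff (u : List ℕ) : Pool.Agent.Y777.AM.St.Ad u ↔ AdmissibleIndex u := by
  cases u with
  | nil => exact Iff.rfl
  | cons s l => exact Iff.rfl

lemma adm_small {u : List ℕ} (h : AdmissibleIndex u) :
    (∀ m ∈ u, 1 ≤ m) ∧ ∀ x ∈ u.head?, 2 ≤ x := by
  cases u with
  | nil => exact h.elim
  | cons s l =>
    refine ⟨fun m hm => ?_, fun x hx => ?_⟩
    · rcases List.mem_cons.1 hm with rfl | hm
      · exact le_trans (by norm_num) h.1
      · exact h.2 m hm
    · rw [List.head?_cons, Option.mem_def, Option.some.injEq] at hx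
      rw [← hx]
      exact h.1

lemma stuffles_eq (u v : List ℕ) : stuffles u v = Pool.Agent.Y760.ZF.sti u v := by
  induction u, v using Pool.Agent.Y760.ZF.sti.induct with
  | case1 v => rw [stuffles, Pool.Agent.Y760.ZF.sti]
  | case2 x u => rw [stuffles, Pool.Agent.Y760.ZF.sti]
  | case3 x u y v ih1 ih2 ih3 => rw [stuffles, Pool.Agent.Y760.ZF.sti, ih1, ih2, ih3]

lemma mu_re : mu.re = 0 := by simp [mu]

lemma mu_im : mu.im = 2 * π := by simp [mu]

lemma value_parts (x : Fin 6 → ℝ) : (value x).re = x 0 - 4 * π ^ 2 * x 2 + x 4 * zeta3 ∧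
    (value x).im = 2 * π * (x 1 - 4 * π ^ 2 * x 3 + x 5 * zeta3) := by
  obtain ⟨q, hq⟩ : ∃ q : ℝ, q = -(4 * π ^ 2) := ⟨_, rfl⟩
  have h2 : mu ^ 2 = (q : ℂ) := by
    rw [mu, hq, mul_pow, mul_pow, Complex.I_sq]
    push_cast
    ring
  have h3 : mu ^ 3 = (q : ℂ) * mu := by rw [pow_succ, h2]
  rw [value, h2, h3]
  constructor
  · simp [mu_re, mu_im]
    rw [hq]
    ring
  · simp [mu_re, mu_im]
    rw [hq]
    ring

/-- the three real numbers -/
noncomputable def th : Fin 3 → ℝ := ![1, -(4 * π ^ 2), zeta3]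

lemma measure : ∃ c : ℝ, 0 < c ∧ Pool.Agent.NH24.GU.Meas th c 227 := by
  obtain ⟨c, hc, h⟩ := Pool.Agent.TH120.HM.measure_all
  refine ⟨c / 24 ^ 227, by positivity, fun P hP H hH hPH => ?_⟩
  have h1 := h (P 0) (-24 * P 1) (P 2) (24 * H) (by linarith) (by
    rintro ⟨h0, h1, h2⟩
    apply hP
    funext i
    fin_cases i
    · exact h0
    · show P 1 = 0
      omega
    · exact h2) (by
      have := hPH 1
      push_cast
      rw [abs_mul, abs_neg, abs_of_pos (by norm_num : (0 : ℝ) < 24)]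
      linarith) (by
      have := hPH 2
      linarith)
  have e1 : ∑ i, (P i : ℝ) * th i = (P 0 : ℝ) + ((-24 * P 1 : ℤ) : ℝ) * Pool.Agent.H337R2.zr 2 +
      P 2 * Pool.Agent.H337R2.zr 3 := by
    have h3 : Pool.Agent.H337R2.zr 3 = zeta3 := rfl
    simp [Fin.sum_univ_succ, th]
    rw [Pool.Agent.LZ.Z2_value, h3]
    ring
  have e2 : (24 * H) ^ (-227 : ℝ) = (24 ^ 227 * H ^ 227)⁻¹ := by
    rw [Real.rpow_neg (by linarith)]
    congr 1
    rw [← mul_pow, ← Real.rpow_natCast]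
    norm_num
  rw [e2] at h1
  rw [e1]
  refine le_trans (le_of_eq ?_) h1
  rw [div_div, div_eq_mul_inv]

/-- Let `a ≥ 0`, `0 < γ < 1`, `ε > 0`, and let `κ`, `C`, `B` be real. There is `c > 0` such that for all large `N`,
all `D` with `D log log N ≤ c log N`, all `J ≤ (log N) ^ a`, all integer polynomials `f_0, ..., f_5` as in the
definition of `Near` whose coefficients have total size at most `2 ^ (N ^ γ)`, all integers `m` with `|m| ≤ B N`,
all finite sets `H` of admissible indices of weight at most `κ N` with at least `ε N` arguments `≥ 2` and all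
complex `b_h` with `|b_h| ≤ C ^ N`: if
`|μ ^ m (f_0(ζ) + f_1(ζ) μ + f_2(ζ) μ² + f_3(ζ) μ³ + f_4(ζ) φ + f_5(ζ) μ φ - ∑_H b_h ζ(h))| ≤ N ^ (-ε N)`
(`μ = 2πi`, `φ = ζ(3)`, `X_w` evaluated at `ζ(index N w)`), then for all `j`: `f_j(ζ) = 0`, and `f_j(Z) = 0` for
all commutative rings `A` and all functions `Z` from the indices to `A` that have the stuffle product. -/
theorem result (a γ ε κ C B : ℝ) (ha : 0 ≤ a) (hγ0 : 0 < γ) (hγ1 : γ < 1) (hε : 0 < ε) :
    ∃ c : ℝ, 0 < c ∧ ∃ N0 : ℕ, ∀ N : ℕ, N0 ≤ N → ∀ D J : ℕ,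
      (D : ℝ) * Real.log (Real.log N) ≤ c * Real.log N → (J : ℝ) ≤ (Real.log N) ^ a →
      ∀ f : Fin 6 → MvPolynomial Word ℤ, (∀ j, Near D J (f j)) →
      (∀ j, ∑ m ∈ (f j).support, |(((f j).coeff m : ℤ) : ℝ)| ≤ (2 : ℝ) ^ ((N : ℝ) ^ γ)) →
      ∀ H : Finset (List ℕ),
      (∀ h ∈ H, AdmissibleIndex h ∧ (h.sum : ℝ) ≤ κ * N ∧ ε * N ≤ height h) →
      ∀ b : List ℕ → ℂ, (∀ h ∈ H, ‖b h‖ ≤ C ^ N) → ∀ m : ℤ, |(m : ℝ)| ≤ B * N →
      ‖mu ^ m * (value (fun j => MvPolynomial.aeval (fun w => mzv (index N w)) (f j)) -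
        ∑ h ∈ H, b h * mzv h)‖ ≤ ((N : ℝ) ^ (ε * N))⁻¹ →
      ∀ j, MvPolynomial.aeval (fun w => mzv (index N w)) (f j) = 0 ∧
        ∀ (A : Type) [CommRing A] (Z : List ℕ → A), HasStuffleProduct Z →
          MvPolynomial.aeval (fun w => Z (index N w)) (f j) = 0 := by
  rw [mzv_eq]
  obtain ⟨c0, hc0, hmeas⟩ := measure
  obtain ⟨c, hc, N1, h1⟩ := Pool.Agent.NH24.GU.poly hc0 hmeas κ C ha hγ0 hγ1 (half_pos hε)
  -- the power of μ
  have hmu1 : (1 : ℝ) ≤ 2 * π := by linarith [Real.pi_gt_three]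
  have ev2 : ∀ᶠ k : ℕ in Filter.atTop, (2 * π) ^ (B * k) * ((k : ℝ) ^ (ε * k))⁻¹ ≤
      ((k : ℝ) ^ (ε / 2 * k))⁻¹ := by
    have h2 : Filter.Tendsto (fun k : ℕ => ((k : ℝ) ^ (ε / 2))) Filter.atTop Filter.atTop :=
      (tendsto_rpow_atTop (by linarith)).comp tendsto_natCast_atTop_atTop
    filter_upwards [h2.eventually_ge_atTop ((2 * π) ^ B), Filter.eventually_ge_atTop 1] with k hk hk1
    have hk0 : (0 : ℝ) < k := by exact_mod_cast hk1
    have h3 : (2 * π) ^ (B * k) ≤ (k : ℝ) ^ (ε / 2 * k) := by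
      rw [Real.rpow_mul (by positivity), Real.rpow_mul hk0.le]
      exact Real.rpow_le_rpow (by positivity) hk hk0.le
    have h4 : (k : ℝ) ^ (ε * k) = (k : ℝ) ^ (ε / 2 * k) * (k : ℝ) ^ (ε / 2 * k) := by
      rw [← Real.rpow_add hk0]
      congr 1
      ring
    rw [h4, mul_inv, ← mul_assoc]
    have h5 : (0 : ℝ) < (k : ℝ) ^ (ε / 2 * k) := by positivity
    have h6 : (2 * π) ^ (B * k) * ((k : ℝ) ^ (ε / 2 * k))⁻¹ ≤ 1 := by
      rw [← div_eq_mul_inv, div_le_one h5]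
      exact h3
    calc (2 * π) ^ (B * k) * ((k : ℝ) ^ (ε / 2 * k))⁻¹ * ((k : ℝ) ^ (ε / 2 * k))⁻¹
        ≤ 1 * ((k : ℝ) ^ (ε / 2 * k))⁻¹ := mul_le_mul_of_nonneg_right h6 (by positivity)
      _ = _ := one_mul _
  obtain ⟨N2, h2⟩ := Filter.eventually_atTop.1 ev2
  refine ⟨c, hc, max (max N1 N2) 1, fun N hN D J hD hJ f hf hfC H hH b hb m hm hs => ?_⟩
  have hN1 : (1 : ℝ) ≤ N := by
    have : 1 ≤ N := by omega
    exact_mod_cast this
  have hbase : ∀ h ∈ H, (∀ m ∈ h, 1 ≤ m) ∧ (∀ x ∈ h.head?, 2 ≤ x) ∧ (h.sum : ℝ) ≤ κ * N ∧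
      ε / 2 * N ≤ Pool.Agent.Y777.AM.ht h := by
    intro h hh
    refine ⟨(adm_small (hH h hh).1).1, (adm_small (hH h hh).1).2, (hH h hh).2.1, ?_⟩
    have h3 : ε * N ≤ Pool.Agent.Y777.AM.ht h := (hH h hh).2.2
    have h4 : ε / 2 * N ≤ ε * N := by nlinarith
    linarith
  -- the difference without the power of μ
  obtain ⟨V, hV⟩ : ∃ V : ℂ, V = value (fun j => MvPolynomial.aeval (fun w =>
    Pool.Agent.Y760.ZG.mz (index N w)) (f j)) - ∑ h ∈ H, b h * Pool.Agent.Y760.ZG.mz h := ⟨_, rfl⟩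
  have hmun : ‖mu‖ = 2 * π := by
    rw [mu, norm_mul, norm_mul, Complex.norm_I, mul_one, Complex.norm_ofNat, Complex.norm_real,
      Real.norm_eq_abs, abs_of_pos Real.pi_pos]
  have hVs : ‖V‖ ≤ ((N : ℝ) ^ (ε / 2 * N))⁻¹ := by
    rw [← hV] at hs
    have hmum : ((2 * π) ^ (B * N))⁻¹ ≤ ‖mu ^ m‖ := by
      rw [norm_zpow, hmun, ← Real.rpow_intCast, ← Real.rpow_neg (by positivity)]
      refine Real.rpow_le_rpow_of_exponent_le hmu1 ?_
      have := neg_abs_le (m : ℝ)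
      linarith
    rw [norm_mul] at hs
    have hpos : (0 : ℝ) < (2 * π) ^ (B * N) := by positivity
    have h3 : ((2 * π) ^ (B * N))⁻¹ * ‖V‖ ≤ ((N : ℝ) ^ (ε * N))⁻¹ :=
      le_trans (mul_le_mul_of_nonneg_right hmum (norm_nonneg _)) hs
    calc ‖V‖ = (2 * π) ^ (B * N) * (((2 * π) ^ (B * N))⁻¹ * ‖V‖) := by
          rw [← mul_assoc, mul_inv_cancel₀ hpos.ne', one_mul]
      _ ≤ (2 * π) ^ (B * N) * ((N : ℝ) ^ (ε * N))⁻¹ := mul_le_mul_of_nonneg_left h3 hpos.le
      _ ≤ _ := h2 N (by omega)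
  obtain ⟨vre, vim⟩ := value_parts (fun j => MvPolynomial.aeval (fun w =>
    Pool.Agent.Y760.ZG.mz (index N w)) (f j))
  have hre : V.re = MvPolynomial.aeval (fun w => Pool.Agent.Y760.ZG.mz (index N w)) (f 0) -
      4 * π ^ 2 * MvPolynomial.aeval (fun w => Pool.Agent.Y760.ZG.mz (index N w)) (f 2) +
      MvPolynomial.aeval (fun w => Pool.Agent.Y760.ZG.mz (index N w)) (f 4) * zeta3 -
      ∑ h ∈ H, (b h).re * Pool.Agent.Y760.ZG.mz h := by
    rw [hV, Complex.sub_re, vre, Complex.re_sum]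
    congr 1
    exact Finset.sum_congr rfl fun h _ => by rw [Complex.re_mul_ofReal]
  have him : V.im = 2 * π * (MvPolynomial.aeval (fun w => Pool.Agent.Y760.ZG.mz (index N w)) (f 1) -
      4 * π ^ 2 * MvPolynomial.aeval (fun w => Pool.Agent.Y760.ZG.mz (index N w)) (f 3) +
      MvPolynomial.aeval (fun w => Pool.Agent.Y760.ZG.mz (index N w)) (f 5) * zeta3 -
      ∑ h ∈ H, ((b h).im / (2 * π)) * Pool.Agent.Y760.ZG.mz h) := by
    rw [hV, Complex.sub_im, vim, Complex.im_sum, mul_sub, Finset.mul_sum]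
    congr 1
    refine Finset.sum_congr rfl fun h _ => ?_
    rw [Complex.im_mul_ofReal]
    field_simp
  -- the real form
  have key : ∀ p q r : Fin 6, ∀ b' : List ℕ → ℝ, (∀ h ∈ H, |b' h| ≤ C ^ N) →
      |MvPolynomial.aeval (fun w => Pool.Agent.Y760.ZG.mz (index N w)) (f p) -
      4 * π ^ 2 * MvPolynomial.aeval (fun w => Pool.Agent.Y760.ZG.mz (index N w)) (f q) +
      MvPolynomial.aeval (fun w => Pool.Agent.Y760.ZG.mz (index N w)) (f r) * zeta3 -
      ∑ h ∈ H, b' h * Pool.Agent.Y760.ZG.mz h| ≤ ((N : ℝ) ^ (ε / 2 * N))⁻¹ →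
      ∀ i, i = p ∨ i = q ∨ i = r →
      MvPolynomial.aeval (fun w => Pool.Agent.Y760.ZG.mz (index N w)) (f i) = 0 ∧
        ∀ (A : Type) [CommRing A] (Z : List ℕ → A), HasStuffleProduct Z →
          MvPolynomial.aeval (fun w => Z (index N w)) (f i) = 0 := by
    intro p q r b' hb' hs' i hi
    have h3 := h1 N (by omega) D J hD hJ ![f p, f q, f r] (fun j => by
      fin_cases j
      · exact hf p
      · exact hf q
      · exact hf r) (fun j => by
      fin_cases j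
      · exact hfC p
      · exact hfC q
      · exact hfC r) H hbase b' hb' (by
      have e1 : ∑ j, th j * MvPolynomial.aeval (fun w => Pool.Agent.Y760.ZG.mz (Pool.Agent.R404.WZ.ar N w))
          ((![f p, f q, f r] : Fin 3 → MvPolynomial Word ℤ) j) =
          MvPolynomial.aeval (fun w => Pool.Agent.Y760.ZG.mz (index N w)) (f p) -
          4 * π ^ 2 * MvPolynomial.aeval (fun w => Pool.Agent.Y760.ZG.mz (index N w)) (f q) +
          MvPolynomial.aeval (fun w => Pool.Agent.Y760.ZG.mz (index N w)) (f r) * zeta3 := by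
        have e2 : (fun w => Pool.Agent.Y760.ZG.mz (Pool.Agent.R404.WZ.ar N w)) =
            fun w => Pool.Agent.Y760.ZG.mz (index N w) := rfl
        rw [e2]
        simp only [Fin.sum_univ_succ, th, Matrix.cons_val_zero, Matrix.cons_val_succ,
          Finset.univ_unique, Fin.default_eq_zero, Finset.sum_singleton, Finset.univ_eq_empty,
          Finset.sum_empty]
        simp
        ring
      rw [e1]
      exact hs')
    have h4 : ∀ j : Fin 3, MvPolynomial.aeval (fun w => Pool.Agent.Y760.ZG.mz (index N w))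
        ((![f p, f q, f r] : Fin 3 → MvPolynomial Word ℤ) j) = 0 ∧
        ∀ (A : Type) [CommRing A] (Z : List ℕ → A), HasStuffleProduct Z →
          MvPolynomial.aeval (fun w => Z (index N w))
            ((![f p, f q, f r] : Fin 3 → MvPolynomial Word ℤ) j) = 0 := by
      intro j
      obtain ⟨g1, g2⟩ := h3 j
      refine ⟨g1, fun A _ Z hZ => g2 A Z fun u v hu hv => ?_⟩
      rw [hZ u v ((adm_iff u).1 hu) ((adm_iff v).1 hv), stuffles_eq]
    rcases hi with rfl | rfl | rfl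
    · exact h4 0
    · exact h4 1
    · exact h4 2
  have k1 := key 0 2 4 (fun h => (b h).re) (fun h hh => (Complex.abs_re_le_norm _).trans (hb h hh)) (by
    rw [← hre]
    exact (Complex.abs_re_le_norm _).trans hVs)
  have k2 := key 1 3 5 (fun h => (b h).im / (2 * π)) (fun h hh => by
    rw [abs_div, abs_of_pos (by positivity : (0 : ℝ) < 2 * π)]
    exact (div_le_self (abs_nonneg _) hmu1).trans ((Complex.abs_im_le_norm _).trans (hb h hh))) (by
    have h3 := (Complex.abs_im_le_norm _).trans hVs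
    rw [him, abs_mul, abs_of_pos (by positivity : (0 : ℝ) < 2 * π)] at h3
    refine le_trans (le_mul_of_one_le_left (abs_nonneg _) hmu1) h3)
  intro j
  fin_cases j
  · exact k1 0 (Or.inl rfl)
  · exact k2 1 (Or.inl rfl)
  · exact k1 2 (Or.inr (Or.inl rfl))
  · exact k2 3 (Or.inr (Or.inl rfl))
  · exact k1 4 (Or.inr (Or.inr rfl))
  · exact k2 5 (Or.inr (Or.inr rfl))

end Pool.Agent.Results.MP_807c24_nt.GrowingDegree
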