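import Pool.Agent.NH24.GU.H

/-!
# Multiple zeta values of weight `k` and of depth up to `c log k / log log k`

For all large `k` and all `b ≤ c log k / log log k` the multiple zeta values `ζ(k_1, ..., k_r)` of weight `k`, of
all depths `r` (automatically `r ≤ b`), all of whose arguments are within `(log k) ^ a / b` of positive integral
multiples of `k / b`, satisfy no nontrivial linear relation with integer coefficients of absolute value at most
`2 ^ (k ^ γ)`, `γ < 1`. The depth is not bounded.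
-/

set_option autoImplicit false

namespace Pool.Agent.Results.MP_cbe134_nt.GrowingDepth

/-- `trunc [s_1, ..., s_r] m` is the sum of `∏ n_i ^ (-s_i)` over `m > n_1 > ... > n_r ≥ 1` -/
noncomputable def trunc : List ℕ → ℕ → ℝ
  | [], _ => 1
  | s :: l, m => ∑ j ∈ Finset.Ico 1 m, trunc l j / (j : ℝ) ^ s

/-- the multiple zeta value `ζ(s_1, ..., s_r)`, `s_1` belongs to the largest variable -/
noncomputable def mzv : List ℕ → ℝ
  | [] => 1
  | s :: l => ∑' m : ℕ, trunc l (m + 1) / ((m + 1 : ℕ) : ℝ) ^ s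

lemma trunc_eq (w : List ℕ) : ∀ m, trunc w m = Pool.Agent.NH24.GD.trunc w m := by
  induction w with
  | nil =>
    intro m
    rw [trunc, Pool.Agent.NH24.GD.trunc]
  | cons s w ih =>
    intro m
    rw [trunc, Pool.Agent.NH24.GD.trunc]
    exact Finset.sum_congr rfl fun j _ => by rw [ih]

lemma mzv_eq (w : List ℕ) : mzv w = Pool.Agent.NH24.GD.mzv w := by
  cases w with
  | nil => rw [mzv, Pool.Agent.NH24.GD.mzv]
  | cons s w =>
    rw [mzv, Pool.Agent.NH24.GD.mzv]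
    exact tsum_congr fun m => by rw [trunc_eq]

/-- Let `a ≥ 0`, `0 < γ < 1` and `ε > 0`. There is `c > 0` such that for all large `k`, all `b ≥ 1` with
`b log log k ≤ c log k`, all finite sets `S` of indices of weight `k` such that for every argument `x` of an
index in `S` there is an integer `j ≥ 1` with `|b x - j k| ≤ (log k) ^ a`, and all integers `c_w`, `w ∈ S`, not
all zero, of absolute value at most `2 ^ (k ^ γ)`: `|∑_{w ∈ S} c_w ζ(w)| > k ^ (-ε k)`. -/
theorem result (a γ ε : ℝ) (ha : 0 ≤ a) (hγ0 : 0 < γ) (hγ1 : γ < 1) (hε : 0 < ε) :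
    ∃ c : ℝ, 0 < c ∧ ∃ k0 : ℕ, ∀ k : ℕ, k0 ≤ k → ∀ b : ℕ, 1 ≤ b →
      (b : ℝ) * Real.log (Real.log k) ≤ c * Real.log k → ∀ S : Finset (List ℕ),
      (∀ w ∈ S, w.sum = k ∧ ∀ x ∈ w, ∃ j : ℕ, 1 ≤ j ∧ |(b : ℝ) * x - j * k| ≤ (Real.log k) ^ a) →
      ∀ c : List ℕ → ℤ, (∃ w ∈ S, c w ≠ 0) → (∀ w ∈ S, |(c w : ℝ)| ≤ (2 : ℝ) ^ ((k : ℝ) ^ γ)) →
      ((k : ℝ) ^ (ε * k))⁻¹ < |∑ w ∈ S, (c w : ℝ) * mzv w| := by
  obtain ⟨c, hc, k0, h0⟩ := Pool.Agent.NH24.GU.depth one_pos Pool.Agent.NH24.GU.meas_one ha hγ0 hγ1 hε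
  refine ⟨c, hc, k0, fun k hk b hb hbk S hS d hd hdH => ?_⟩
  have h1 := h0 k hk b hb hbk S hS (fun w _ => d w) (by
    obtain ⟨w, hw, h2⟩ := hd
    exact ⟨w, hw, fun h3 => h2 (congrFun h3 0)⟩) (fun w hw _ => hdH w hw)
  simp only [Fin.sum_univ_one, Matrix.cons_val_fin_one, mul_one, ← mzv_eq] at h1
  exact h1

end Pool.Agent.Results.MP_cbe134_nt.GrowingDepth
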